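import Pool.Agent.T9h40.GP.Spec

/-!
# Pieces A1, A2, A3. Author: helper89.
-/

set_option autoImplicit false

open Polynomial Filter Topology Bornology

namespace Pool.Agent.T9h89.GP

open Pool.Agent.T9h40.GP

theorem der_lognorm {F : ℝ → ℂ} {F' : ℂ} {θ : ℝ} (hF : HasDerivAt F F' θ) (h0 : F θ ≠ 0) :
    HasDerivAt (fun s => Real.log ‖F s‖) (F' / F θ).re θ := by
  have hre : HasDerivAt (fun s => (F s).re) F'.re θ :=
    Complex.reCLM.hasFDerivAt.comp_hasDerivAt θ hF
  have him : HasDerivAt (fun s => (F s).im) F'.im θ :=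
    Complex.imCLM.hasFDerivAt.comp_hasDerivAt θ hF
  have h1 := (hre.mul hre).add (him.mul him)
  have h2 : (F θ).re * (F θ).re + (F θ).im * (F θ).im ≠ 0 := by
    rw [← Complex.normSq_apply]
    exact (Complex.normSq_pos.2 h0).ne'
  have h3 := (h1.log h2).const_mul (1 / 2)
  have h4 : (fun s => Real.log ‖F s‖) = fun s => 1 / 2 *
      Real.log ((F s).re * (F s).re + (F s).im * (F s).im) := by
    funext s
    rw [← Complex.normSq_apply, Complex.normSq_eq_norm_sq, Real.log_pow]
    push_cast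
    ring
  rw [h4]
  refine h3.congr_deriv ?_
  show 1 / 2 * ((F'.re * (F θ).re + (F θ).re * F'.re + (F'.im * (F θ).im + (F θ).im * F'.im)) /
    ((F θ).re * (F θ).re + (F θ).im * (F θ).im)) = _
  rw [Complex.div_re, Complex.normSq_apply]
  field_simp
  ring

theorem cont_quot {F : ℝ → ℂ} {F' : ℝ → ℂ} (hF : Continuous F) (hF' : Continuous F')
    (h0 : ∀ θ ∈ Set.Icc (0:ℝ) 1, F θ ≠ 0) : ContinuousOn (fun θ => F' θ / F θ) (Set.uIcc 0 1) := by
  rw [Set.uIcc_of_le zero_le_one]
  exact hF'.continuousOn.div hF.continuousOn h0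

theorem hd {F : ℝ → ℂ} (hF : ContDiff ℝ 1 F) (θ : ℝ) : HasDerivAt F (deriv F θ) θ :=
  (hF.differentiable one_ne_zero θ).hasDerivAt

theorem cd {F : ℝ → ℂ} (hF : ContDiff ℝ 1 F) : Continuous (deriv F) :=
  hF.continuous_deriv le_rfl

theorem logInt : LogInt := by
  intro F hF h0 hc
  have hco := cont_quot hF.continuous (cd hF) h0
  have hii : IntervalIntegrable (fun θ => deriv F θ / F θ) MeasureTheory.volume 0 1 :=
    hco.intervalIntegrable
  have hre : ∫ θ in (0:ℝ)..1, (deriv F θ / F θ).re = 0 := by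
    rw [intervalIntegral.integral_eq_sub_of_hasDerivAt (f := fun s => Real.log ‖F s‖)
      (fun θ hθ => der_lognorm (hd hF θ) (h0 θ (by rwa [Set.uIcc_of_le zero_le_one] at hθ)))
      (Complex.continuous_re.comp_continuousOn hco).intervalIntegrable]
    simp only [hc, sub_self]
  apply Complex.ext
  · have h1 := Complex.reCLM.intervalIntegral_comp_comm hii
    simp only [Complex.reCLM_apply] at h1
    rw [← h1, hre]
    simp
  · have h1 := Complex.imCLM.intervalIntegral_comp_comm hii
    simp only [Complex.imCLM_apply] at h1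
    rw [← h1]
    simp [ww]

section
variable {x : ℝ → ℂ} {t : ℂ}

theorem slit {θ : ℝ} (h : ‖x θ‖ < ‖t‖) : 1 - x θ * t⁻¹ ∈ Complex.slitPlane := by
  left
  have ht : t ≠ 0 := by rintro rfl; rw [norm_zero] at h; exact absurd h (not_lt.2 (norm_nonneg _))
  have h1 : ‖x θ * t⁻¹‖ < 1 := by
    rw [norm_mul, norm_inv, ← div_eq_mul_inv, div_lt_one (norm_pos_iff.2 ht)]
    exact h
  have h2 := Complex.abs_re_le_norm (x θ * t⁻¹)
  have h3 := (abs_le.1 h2).2
  rw [Complex.sub_re, Complex.one_re]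
  linarith

theorem der_l {θ : ℝ} (hx : ContDiff ℝ 1 x) (h : ‖x θ‖ < ‖t‖) :
    HasDerivAt (fun s => Complex.log (1 - x s * t⁻¹)) (deriv x θ / (x θ - t)) θ := by
  have ht : t ≠ 0 := by rintro rfl; rw [norm_zero] at h; exact absurd h (not_lt.2 (norm_nonneg _))
  have hxt : x θ - t ≠ 0 := by
    intro h'
    rw [sub_eq_zero.1 h'] at h
    exact lt_irrefl _ h
  have h1 : HasDerivAt (fun s => 1 - x s * t⁻¹) (- (deriv x θ * t⁻¹)) θ :=
    ((hd hx θ).mul_const t⁻¹).const_sub 1
  have h2 := h1.clog_real (slit h)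
  convert h2 using 1
  have h3 : 1 - x θ * t⁻¹ ≠ 0 := Complex.slitPlane_ne_zero (slit h)
  have h4 : t - x θ ≠ 0 := by
    intro h'; apply hxt; rw [← neg_sub, h', neg_zero]
  have h5 : 1 - x θ * t⁻¹ = - (x θ - t) * t⁻¹ := by field_simp; ring
  rw [h5]
  field_simp

end

theorem wwSub : WwSub := by
  intro x t hx hc hlt
  have h0 : ∀ θ ∈ Set.Icc (0:ℝ) 1, x θ - t ≠ 0 := by
    intro θ hθ h'
    have := hlt θ hθ
    rw [sub_eq_zero.1 h'] at this
    exact lt_irrefl _ this
  have hco : ContinuousOn (fun θ => deriv x θ / (x θ - t)) (Set.uIcc 0 1) :=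
    cont_quot (hx.continuous.sub continuous_const) (cd hx) h0
  have h1 : ∫ θ in (0:ℝ)..1, deriv x θ / (x θ - t) = 0 := by
    rw [intervalIntegral.integral_eq_sub_of_hasDerivAt
      (f := fun s => Complex.log (1 - x s * t⁻¹))
      (fun θ hθ => der_l hx (hlt θ (by rwa [Set.uIcc_of_le zero_le_one] at hθ)))
      hco.intervalIntegrable]
    simp only [hc, sub_self]
  refine ⟨?_, h1⟩
  unfold ww
  have h2 : ∀ θ, deriv (fun θ => x θ - t) θ = deriv x θ := fun θ => deriv_sub_const ..
  simp only [h2]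
  have i1 : IntervalIntegrable (fun θ => deriv x θ / (x θ - t)) MeasureTheory.volume 0 1 :=
    hco.intervalIntegrable
  have h3 := Complex.imCLM.intervalIntegral_comp_comm i1
  simp only [Complex.imCLM_apply] at h3
  rw [h3, h1, Complex.zero_im]

theorem rgSub : RgSub := by
  intro F x t hF h0 hcF hx hcx hlt
  have hu : Set.uIcc (0:ℝ) 1 = Set.Icc 0 1 := Set.uIcc_of_le zero_le_one
  have hxt : ∀ θ ∈ Set.Icc (0:ℝ) 1, x θ - t ≠ 0 := by
    intro θ hθ h'
    have := hlt θ hθ
    rw [sub_eq_zero.1 h'] at this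
    exact lt_irrefl _ this
  have ht : t ≠ 0 := by
    rintro rfl
    have := hlt 0 (by simp)
    rw [norm_zero] at this
    exact absurd this (not_lt.2 (norm_nonneg _))
  have hco : ContinuousOn (fun θ => deriv x θ / (x θ - t)) (Set.uIcc 0 1) :=
    cont_quot (hx.continuous.sub continuous_const) (cd hx) hxt
  have hcF' := cont_quot hF.continuous (cd hF) h0
  have hl : ContinuousOn (fun θ => Complex.log (1 - x θ * t⁻¹)) (Set.uIcc 0 1) := by
    rw [hu]
    intro θ hθ
    exact (der_l hx (hlt θ hθ)).continuousAt.continuousWithinAt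
  have hn : ContinuousOn (fun θ => Real.log ‖F θ‖) (Set.uIcc 0 1) := by
    rw [hu]
    intro θ hθ
    exact (der_lognorm (hd hF θ) (h0 θ hθ)).continuousAt.continuousWithinAt
  -- integration by parts
  have h1 : ∫ θ in (0:ℝ)..1, Real.log ‖F θ‖ * (deriv x θ / (x θ - t)).im =
      - ∫ θ in (0:ℝ)..1, (deriv F θ / F θ).re * (Complex.log (1 - x θ * t⁻¹)).im := by
    have h2 := intervalIntegral.integral_mul_deriv_eq_deriv_mul
      (u := fun θ => Real.log ‖F θ‖) (v := fun θ => (Complex.log (1 - x θ * t⁻¹)).im)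
      (u' := fun θ => (deriv F θ / F θ).re) (v' := fun θ => (deriv x θ / (x θ - t)).im)
      (a := 0) (b := 1)
      (fun θ hθ => der_lognorm (hd hF θ) (h0 θ (hu ▸ hθ)))
      (fun θ hθ => Complex.imCLM.hasFDerivAt.comp_hasDerivAt θ (der_l hx (hlt θ (hu ▸ hθ))))
      (Complex.continuous_re.comp_continuousOn hcF').intervalIntegrable
      (Complex.continuous_im.comp_continuousOn hco).intervalIntegrable
    rw [h2, hcF, hcx]
    ring
  unfold rg
  have h2 : ∀ θ, deriv (fun θ => x θ - t) θ = deriv x θ := fun θ => deriv_sub_const ..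
  simp only [h2]
  have h3 : ∀ θ ∈ Set.uIcc (0:ℝ) 1, Real.log ‖x θ - t‖ =
      Real.log ‖t‖ + (Complex.log (1 - x θ * t⁻¹)).re := by
    intro θ hθ
    have hθ' := slit (hlt θ (hu ▸ hθ))
    rw [Complex.log_re, ← Real.log_mul (norm_ne_zero_iff.2 ht)
      (norm_ne_zero_iff.2 (Complex.slitPlane_ne_zero hθ')), ← norm_mul, ← norm_neg]
    congr 2
    field_simp
    ring
  have h4 : ∫ θ in (0:ℝ)..1, (Real.log ‖F θ‖ * (deriv x θ / (x θ - t)).im -
      Real.log ‖x θ - t‖ * (deriv F θ / F θ).im) =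
      ∫ θ in (0:ℝ)..1, (Real.log ‖F θ‖ * (deriv x θ / (x θ - t)).im -
      (Real.log ‖t‖ * (deriv F θ / F θ).im +
        (Complex.log (1 - x θ * t⁻¹)).re * (deriv F θ / F θ).im)) := by
    refine intervalIntegral.integral_congr fun θ hθ => ?_
    rw [h3 θ hθ]
    ring
  have i1 : IntervalIntegrable (fun θ => Real.log ‖F θ‖ * (deriv x θ / (x θ - t)).im)
      MeasureTheory.volume 0 1 :=
    (hn.mul (Complex.continuous_im.comp_continuousOn hco)).intervalIntegrable
  have i2 : IntervalIntegrable (fun θ => Real.log ‖t‖ * (deriv F θ / F θ).im)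
      MeasureTheory.volume 0 1 :=
    (continuousOn_const.mul (Complex.continuous_im.comp_continuousOn hcF')).intervalIntegrable
  have i3 : IntervalIntegrable
      (fun θ => (Complex.log (1 - x θ * t⁻¹)).re * (deriv F θ / F θ).im)
      MeasureTheory.volume 0 1 :=
    ((Complex.continuous_re.comp_continuousOn hl).mul
      (Complex.continuous_im.comp_continuousOn hcF')).intervalIntegrable
  have i4 : IntervalIntegrable
      (fun θ => (deriv F θ / F θ).re * (Complex.log (1 - x θ * t⁻¹)).im)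
      MeasureTheory.volume 0 1 :=
    ((Complex.continuous_re.comp_continuousOn hcF').mul
      (Complex.continuous_im.comp_continuousOn hl)).intervalIntegrable
  rw [h4, intervalIntegral.integral_sub i1 (i2.add i3), intervalIntegral.integral_add i2 i3, h1,
    intervalIntegral.integral_const_mul]
  unfold qq ww
  have i5 : IntervalIntegrable (fun θ => deriv F θ / F θ * Complex.log (1 - x θ * t⁻¹))
      MeasureTheory.volume 0 1 := (hcF'.mul hl).intervalIntegrable
  have h5 := Complex.imCLM.intervalIntegral_comp_comm i5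
  simp only [Complex.imCLM_apply, Complex.mul_im] at h5
  rw [← h5, intervalIntegral.integral_add i4 (by
    refine i3.congr ?_
    intro θ _
    exact mul_comm _ _)]
  have h6 : ∫ θ in (0:ℝ)..1, (deriv F θ / F θ).im * (Complex.log (1 - x θ * t⁻¹)).re =
      ∫ θ in (0:ℝ)..1, (Complex.log (1 - x θ * t⁻¹)).re * (deriv F θ / F θ).im :=
    intervalIntegral.integral_congr fun θ _ => mul_comm _ _
  rw [h6]
  ring

end Pool.Agent.T9h89.GP
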