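import Pool.Agent.T9h40.GP.Spec
import Pool.Agent.T9h89.GP.A

/-!
# Pieces A7 and K2. Author: helper89.
-/

set_option autoImplicit false

open Polynomial Filter Topology Bornology

namespace Pool.Agent.T9h89.GP

open Pool.Agent.T9h40.GP

theorem parts : Parts := by
  intro γ
  have hx := fun θ => hd γ.hx θ
  have hy := fun θ => hd γ.hy θ
  have c1 := γ.hx.continuous
  have c2 := γ.hy.continuous
  have c3 := cd γ.hx
  have c4 := cd γ.hy
  constructor
  · intro i
    have hi : (i : ℂ) + 1 ≠ 0 := Nat.cast_add_one_ne_zero i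
    have h1 : ∀ θ ∈ Set.uIcc (0:ℝ) 1, HasDerivAt (fun s => γ.x s ^ (i + 1) / ((i : ℂ) + 1))
        (γ.x θ ^ i * deriv γ.x θ) θ := by
      intro θ _
      refine (((hx θ).fun_pow (i + 1)).div_const ((i : ℂ) + 1)).congr_deriv ?_
      rw [Nat.add_sub_cancel]
      push_cast
      field_simp
    rw [intervalIntegral.integral_eq_sub_of_hasDerivAt h1
      (((c1.pow i).mul c3).intervalIntegrable _ _), γ.cx, sub_self]
  · intro i j
    have h1 : ∀ θ ∈ Set.uIcc (0:ℝ) 1, HasDerivAt (fun s => γ.x s ^ (i + 1) * γ.y s ^ (j + 1))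
        (((i : ℂ) + 1) * (γ.x θ ^ i * γ.y θ ^ (j + 1) * deriv γ.x θ) +
          ((j : ℂ) + 1) * (γ.x θ ^ (i + 1) * γ.y θ ^ j * deriv γ.y θ)) θ := by
      intro θ _
      refine (((hx θ).fun_pow (i + 1)).mul ((hy θ).fun_pow (j + 1))).congr_deriv ?_
      simp only [Nat.add_sub_cancel]
      push_cast
      ring
    have i1 : IntervalIntegrable (fun θ => ((i : ℂ) + 1) * (γ.x θ ^ i * γ.y θ ^ (j + 1) *
        deriv γ.x θ)) MeasureTheory.volume 0 1 :=
      (continuous_const.mul (((c1.pow _).mul (c2.pow _)).mul c3)).intervalIntegrable ..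
    have i2 : IntervalIntegrable (fun θ => ((j : ℂ) + 1) * (γ.x θ ^ (i + 1) * γ.y θ ^ j *
        deriv γ.y θ)) MeasureTheory.volume 0 1 :=
      (continuous_const.mul (((c1.pow _).mul (c2.pow _)).mul c4)).intervalIntegrable ..
    have h2 := intervalIntegral.integral_eq_sub_of_hasDerivAt h1 (i1.add i2)
    rw [intervalIntegral.integral_add i1 i2, γ.cx, γ.cy, sub_self,
      intervalIntegral.integral_const_mul, intervalIntegral.integral_const_mul] at h2
    linear_combination h2

theorem dl {f : ℂ → ℂ} {q : ℂ} (hf : DifferentiableAt ℂ f q) (h0 : f q ≠ 0) :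
    DifferentiableAt ℝ (fun t => Real.log ‖f t‖) q :=
  ((hf.restrictScalars ℝ).norm ℝ h0).log (norm_ne_zero_iff.2 h0)

theorem mem_rts {P : Polynomial ℂ[X]} {s q : ℂ} (h : q ∈ rts P s) : evalEval q s P = 0 := by
  unfold rts at h
  rw [Multiset.mem_toFinset] at h
  have := (Polynomial.mem_roots'.1 h).2
  exact this

theorem keyLoc (hLoc : Loc) : KeyLoc := by
  classical
  intro n P R R' y hBr L G s μ hs hL hG hid q hq j hj
  have hq0 := mem_rts hq
  have hRq : R < ‖q‖ := hBr.far q s hs hq0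
  have hopen : IsOpen {t : ℂ | R < ‖t‖} := isOpen_lt continuous_const continuous_norm
  have hnh : {t : ℂ | R < ‖t‖} ∈ 𝓝 q := hopen.mem_nhds hRq
  have hdy : ∀ i, DifferentiableAt ℂ (y i) q := fun i => (hBr.diff i).differentiableAt hnh
  have hne : ∀ i, i ≠ j → y i q ≠ s := by
    intro i hi h
    exact hi (hBr.inj q hRq (h.trans hj.symm))
  set h : ℂ → ℂ := dslope (y j) q with hh
  have hhq : h q ≠ 0 := by
    rw [hh, dslope_same]
    exact hBr.der j q hRq
  have hhd : DifferentiableAt ℂ h q :=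
    ((Complex.differentiableOn_dslope hnh).2 (hBr.diff j)).differentiableAt hnh
  have hfac : ∀ t, y j t - s = (t - q) * h t := by
    intro t
    rw [← hj, hh, ← smul_eq_mul, sub_smul_dslope]
  set B : ℂ → ℝ := fun t => G t - L j t * Real.log ‖h t‖ -
    ∑ i ∈ Finset.univ.erase j, L i t * Real.log ‖y i t - s‖ +
    ∑ q' ∈ (rts P s).erase q, μ q' * Real.log ‖q' - t‖ with hB
  have hBd : DifferentiableAt ℝ B q := by
    refine (((hG q hRq).sub ((hL j q hRq).mul (dl hhd hhq))).sub
      (DifferentiableAt.fun_sum fun i hi => ?_)).add (DifferentiableAt.fun_sum fun q' hq' => ?_)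
    · exact (hL i q hRq).mul (dl (f := fun t => y i t - s) ((hdy i).sub_const s)
        (sub_ne_zero.2 (hne i (Finset.mem_erase.1 hi).1)))
    · exact (differentiableAt_const _).mul (dl (f := fun t => q' - t)
        ((differentiableAt_const _).sub differentiableAt_id)
        (sub_ne_zero.2 (Finset.mem_erase.1 hq').1))
  have hev : ∀ᶠ t in 𝓝[≠] q, (L j t - μ q) * Real.log ‖t - q‖ = B t := by
    have e1 : ∀ᶠ t in 𝓝 q, R < ‖t‖ := hnh
    have e2 : ∀ᶠ t in 𝓝 q, h t ≠ 0 := hhd.continuousAt.eventually_ne hhq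
    have e3 : ∀ᶠ t in 𝓝 q, ∀ i, i ≠ j → y i t ≠ s := by
      rw [Filter.eventually_all]
      intro i
      by_cases hi : i = j
      · exact Filter.Eventually.of_forall fun t h => absurd hi h
      · exact ((hdy i).continuousAt.eventually_ne (hne i hi)).mono fun t ht _ => ht
    have e4 : ∀ᶠ t in 𝓝[≠] q, R < ‖t‖ ∧ h t ≠ 0 ∧ ∀ i, i ≠ j → y i t ≠ s :=
      (e1.and (e2.and e3)).filter_mono nhdsWithin_le_nhds
    filter_upwards [e4, self_mem_nhdsWithin] with t ht htq
    obtain ⟨h1, h2, h3⟩ := ht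
    have htq' : t - q ≠ 0 := sub_ne_zero.2 htq
    have h4 : evalEval t s P ≠ 0 := by
      rw [hBr.fac t h1 s]
      refine Finset.prod_ne_zero_iff.2 fun i _ => ?_
      rw [← neg_ne_zero, neg_sub]
      by_cases hi : i = j
      · rw [hi, hfac]
        exact mul_ne_zero htq' h2
      · exact sub_ne_zero.2 (h3 i hi)
    have h5 := hid t h1 h4
    rw [← Finset.add_sum_erase _ _ (Finset.mem_univ j), ← Finset.add_sum_erase _ _ hq, hfac,
      norm_mul, Real.log_mul (norm_ne_zero_iff.2 htq') (norm_ne_zero_iff.2 h2),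
      norm_sub_rev q t] at h5
    simp only [hB]
    linarith
  obtain ⟨r1, r2⟩ := hLoc (L j) B (fderiv ℝ (L j) q) (fderiv ℝ B q) q (μ q)
    (hL j q hRq).hasFDerivAt hBd.hasFDerivAt hev
  exact ⟨r1, r2⟩

end Pool.Agent.T9h89.GP
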